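import Pool.Agent.Lib.MP_2b97da_lc.Defs
import Pool.Agent.Lib.MP_2b97da_lc.Final

/-! Q2 holds for every proper filter `D` with `reg_*(D) = reg(D)`. -/

namespace Pool.Agent.Results.MP_2b97da_lc.Depth

open Cardinal Pool.Agent.Lib.MP_2b97da_lc.St

universe u

theorem result {K : Type u} (D : Filter K) (hD : ∅ ∉ D) (hreg : regStar D = reg D)
    (B : K → Type u) [∀ i, BooleanAlgebra (B i)] (l : K → Cardinal.{u}) (_hl : ∀ i, ℵ₀ ≤ l i)
    (hB : ∀ i, l i < depthP fun x y : B i => x ≤ y) (μ : Cardinal.{u})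
    (h2 : 2 ^ #K < μ ^ ℵ₀) (hT : μ ^ ℵ₀ < supT D l) :
    Order.succ μ < depthP (rpLe D B) :=
  q2 D hD hreg B l hB μ h2 hT

end Pool.Agent.Results.MP_2b97da_lc.Depth
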