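import Pool.Agent.Lib.MP_2b97da_lc.Defs
import Pool.Agent.Lib.MP_2b97da_lc.Final

/-! Q1 holds for every proper filter `D` with `reg_*(D) = reg(D)`. -/

namespace Pool.Agent.Results.MP_2b97da_lc.Tcf

open Cardinal Pool.Agent.Lib.MP_2b97da_lc.St

universe u

theorem result {K : Type u} (D : Filter K) (hD : ∅ ∉ D) (hreg : regStar D = reg D)
    (l : K → Cardinal.{u}) (hl : ∀ i, ℵ₀ ≤ l i) (h2 : ∀ i, 2 ^ #K ≤ l i) (μ : Cardinal.{u})
    (hT : μ ^ ℵ₀ < supT D l) :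
    ∃ l' : K → Cardinal.{u}, (∀ i, (l' i).IsRegular ∧ l' i ≤ l i) ∧ μ < supH D l' :=
  q1 D hD hreg l hl h2 μ hT

end Pool.Agent.Results.MP_2b97da_lc.Tcf
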